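import Pool.Agent.Helper95.HS.Stmts
import Pool.Agent.Helper53.PN.MTH

/-! # HS: the row HFIN -/

set_option autoImplicit false

namespace Pool.Agent.Helper39.HS

open MeasureTheory Filter Pool.Agent.Helper95 Pool.Agent.Helper95.PW Pool.Agent.Helper95.LN
  Pool.Agent.Helper95.CF Pool.Agent.Helper95.HS

/-- the energy bound of the approximating functions -/
theorem hfin_en (h10 : ST_QHM) (h11 : ST_INTM) {n M : ℕ} (X : Fin M → R3) (Z : Fin M → ℝ)
    (E : ℝ) (hEn : E + nucR X Z ≤ 0) (u : Wf n) (hu : Sm u)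
    (hsq : PW.sq u ≤ 2) (hres : resM X Z E u ≤ 1 / 2) :
    QM X Z u + nucR X Z * PW.sq u ≤ 1 := by
  have h1 := innm_Q_le h10 h11 X Z E u hu
  have h0 := com_sq_nonneg u
  have h2 : (E + nucR X Z) * PW.sq u ≤ 0 := mul_nonpos_of_nonpos_of_nonneg hEn h0
  have h4 : (E + nucR X Z) * PW.sq u = E * PW.sq u + nucR X Z * PW.sq u := by ring
  linarith

theorem hfin_nucR {M : ℕ} (X : Fin M → R3) (Z : Fin M → ℝ) (hZ : ∀ j, 0 ≤ Z j) :
    0 ≤ nucR X Z := by
  unfold nucR
  refine Finset.sum_nonneg fun i _ => Finset.sum_nonneg fun j _ => ?_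
  split_ifs
  · exact div_nonneg (mul_nonneg (hZ i) (hZ j)) (com_nr_nonneg _)
  · exact le_rfl

theorem hfin_grd_nonneg (g : R3 → ℝ) (y : R3) : 0 ≤ grd g y :=
  Finset.sum_nonneg fun _ _ => sq_nonneg _

theorem hfin_grd_cont {g : R3 → ℝ} {K R : ℝ} (h : Scale g K R) : Continuous (grd g) := by
  unfold grd pd
  refine continuous_finsetSum _ fun i _ => ?_
  exact ((h.sm.continuous_fderiv (by simp)).clm_apply continuous_const).pow 2

theorem hfin_grd_le {g : R3 → ℝ} {K R : ℝ} (h : Scale g K R) (y : R3) :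
    |grd g y| ≤ 3 * K ^ 2 := by
  rw [abs_of_nonneg (hfin_grd_nonneg g y)]
  unfold grd
  have hK : ∀ i, pd i g y ^ 2 ≤ K ^ 2 := fun i => sq_le_sq' (by
    have := neg_abs_le (pd i g y)
    linarith [h.d1 i y]) ((le_abs_self _).trans (h.d1 i y))
  have := Finset.sum_le_sum fun (i : Fin 3) (_ : i ∈ Finset.univ) => hK i
  rw [Finset.sum_const, Finset.card_univ, Fintype.card_fin, nsmul_eq_mul] at this
  push_cast at this
  exact this

theorem hfin_sep {M : ℕ} {X : Fin M → R3} {d d' : ℝ} (h : Sep X d) (hd : d' ≤ d) : Sep X d' :=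
  fun i j hij => le_trans (by linarith) (h i j hij)

theorem HFIN (h1 : ST_SSR) (h2 : ST_MLH) (h3 : ST_KLB) (h4 : ST_EBH) (h5 : ST_LGA)
    (h6 : ST_LGB) (h7 : ST_POTB) (h8 : ST_LIMG) (h9 : ST_CUT) (h10 : ST_APXM) (h11 : ST_LMTM)
    (h12 : ST_QHM) (h13 : ST_INTM) : ST_HFIN := by
  intro θ hθ hθ2
  have hθp : 0 < θ ^ 2 := by positivity
  obtain ⟨a, ha0, ha1, ha2⟩ : ∃ a : ℝ, 0 < a ∧ a < 1 ∧ 6 < a * θ ^ 2 := by
    refine ⟨(1 + 6 / θ ^ 2) / 2, by positivity, ?_, ?_⟩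
    · have : 6 / θ ^ 2 < 1 := by rw [div_lt_one hθp]; exact hθ2
      linarith
    · have : (1 + 6 / θ ^ 2) / 2 * θ ^ 2 = (θ ^ 2 + 6) / 2 := by field_simp
      rw [this]
      linarith
  obtain ⟨Ca, hCa, HA⟩ := h2
  obtain ⟨Cb, hCb, HB⟩ := h1
  obtain ⟨K, hK, H6, _⟩ := h9
  have hK0 : 0 < K := by linarith
  obtain ⟨d1, hd1, H1⟩ := h3 ((1 - a) / 4) (by linarith)
  obtain ⟨d2, hd2, H2⟩ := h4 (1 / 4) (by norm_num)
  obtain ⟨d0, hd0⟩ : ∃ d0 : ℝ, d0 = 3 / 2 * (Ca * (Ca + 1)) * (1 + 4 / a) / (a * θ ^ 2 - 6) :=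
    ⟨_, rfl⟩
  obtain ⟨d, hd⟩ : ∃ d : ℝ, d = max d1 (max d2 d0) := ⟨_, rfl⟩
  have hdd1 : d1 ≤ d := by rw [hd]; exact le_max_left _ _
  have hdd2 : d2 ≤ d := by rw [hd]; exact (le_max_left _ _).trans (le_max_right _ _)
  have hdd0 : d0 ≤ d := by rw [hd]; exact (le_max_right _ _).trans (le_max_right _ _)
  have h1d : 1 ≤ d := hd1.trans hdd1
  have hd0p : 0 < d := by linarith
  obtain ⟨Cp, hCp, HP⟩ := h7 1 d zero_le_one hd0p
  refine ⟨d, h1d, ?_⟩
  intro n M X Z E φ G hn hM hNuc hZ1 hSep hG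
  have hZ0 := hNuc.1
  have hn1 : (1:ℝ) ≤ n := by exact_mod_cast hn
  have hM1 : (1:ℝ) ≤ M := by exact_mod_cast hM
  have hEn : E + nucR X Z ≤ 0 := by
    have := H2 n M X Z E hNuc hZ1 (hfin_sep hSep hdd2) hG.low
    linarith
  have hE : E ≤ 0 := by
    have := hfin_nucR X Z hZ0
    linarith
  have hTn := H1 n M X Z E φ G hn hNuc hZ1 (hfin_sep hSep hdd1) hG
  obtain ⟨u, hu⟩ := h10 n M X Z E φ G hG
  obtain ⟨l1, l2, l3⟩ := h11 n M X Z E φ G u hG hu
  obtain ⟨hsm, hcv, _, ⟨M0, hM0⟩, hres⟩ := hu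
  obtain ⟨W, hW⟩ : ∃ W : ℝ, W = n * (M : ℝ) ^ (2 / 3 : ℝ) := ⟨_, rfl⟩
  have hW1 : 1 ≤ W := by
    rw [hW]
    have := Real.one_le_rpow hM1 (by norm_num : (0:ℝ) ≤ 2 / 3)
    nlinarith
  obtain ⟨T, hT⟩ : ∃ T : ℝ, T = kinG G := ⟨_, rfl⟩
  rw [← hT] at l2 hTn ⊢
  have hTn' : a / 4 * n ≤ T := by
    have : (1:ℝ) / 4 - (1 - a) / 4 = a / 4 := by ring
    rwa [this] at hTn
  have hT0 : 0 < T := lt_of_lt_of_le (by positivity) hTn'
  obtain ⟨C', hC', HA'⟩ := HA d n M X Z E (T + 1) h1d hM hn hSep hNuc hZ1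
  obtain ⟨V, hV⟩ : ∃ V : ℝ, V = 4 * T + Ca / d * (1 + Ca * (T + n)) := ⟨_, rfl⟩
  have hV0 : 0 < V := by rw [hV]; positivity
  have key : ∀ η : ℝ, 0 < η → mom G ^ 2 ≤ 3 / 4 * (n + η) * (V / 2) := by
    intro η hη
    have hLt : Tendsto (fun L : ℕ => ((L:ℝ) + 1) / 2) atTop atTop :=
      (tendsto_natCast_atTop_atTop.atTop_add tendsto_const_nhds).atTop_div_const (by norm_num)
    have hL0 : ∀ᶠ L : ℕ in atTop, ∀ j, nr (X j) ≤ ((L:ℝ) + 1) / 2 := by
      rw [Filter.eventually_all]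
      intro j
      exact hLt.eventually_ge_atTop _
    have hL1 : ∀ᶠ L : ℕ in atTop, ∀ m : Fin 3,
        one (grd (gm m ((L : ℝ) + 1))) φ < n + η := by
      rw [Filter.eventually_all]
      intro m
      have := h6 n φ m hG.lp
      rw [hG.norm, mul_one] at this
      exact this.eventually_lt_const (by linarith)
    have hev : ∀ᶠ L : ℕ in atTop, (∑ m, PW.sq (PG (gm m (L + 1)) φ G)) ^ 2 ≤
        3 / 4 * (n + η) * (V / 2 + Cb * K ^ 2 *
          ((T + (Cp * (T + W) + W) + Cp * (T + W)) / (((L:ℝ) + 1) / 2) ^ 2 +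
          2 * n / (((L:ℝ) + 1) / 2) ^ 4)) := by
      filter_upwards [hL0, hL1] with L hL hLη
      have hLp : (0:ℝ) < (L:ℝ) + 1 := by positivity
      obtain ⟨R, hR⟩ : ∃ R : ℝ, R = ((L:ℝ) + 1) / 2 := ⟨_, rfl⟩
      rw [← hR] at hL ⊢
      have hRp : 0 < R := by rw [hR]; positivity
      obtain ⟨B, hB⟩ : ∃ B : ℝ, B = (T + 1) + (Cp * (T + 1 + W) + W) + |M0| + (n + η) := ⟨_, rfl⟩
      obtain ⟨C'', hC'', HI⟩ := HB n M X Z E (fun m => gm m ((L:ℝ) + 1)) K R B Set.univ hG.low hZ0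
        hK (fun m => MTH_scale (H6 m _ hLp).1 hK0.le hRp (by rw [hR]; linarith)) hRp isClosed_univ
        (fun m y hy => absurd (Set.mem_univ y) hy)
        (fun m j y hy i => MTH_pd m _ (H6 m _ hLp).2.1 y
          (MTH_geo y (X j) _ hLp (by rw [← hR]; exact hy) (by rw [← hR]; exact hL j)) i)
      have hevj : ∀ᶠ j in atTop, (∑ m, PW.sq (fun s => Pg (gm m ((L:ℝ) + 1)) (u j s))) ^ 2 ≤
          3 / 4 * (n + η) * ((4 * kin (u j) + Ca / d * (1 + Ca * (kin (u j) + n)) +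
            C' * Real.sqrt (resM X Z E (u j))) / 2 + Cb * K ^ 2 * ((kin (u j) +
            (Cp * (kin (u j) + W) + W) + Cp * (kin (u j) + W)) / R ^ 2 + 2 * n / R ^ 4)) +
            C'' * Real.sqrt (resM X Z E (u j)) := by
        have e1 : ∀ᶠ j in atTop, PW.sq (u j) ≤ 2 :=
          l1.eventually_le_const (by norm_num : (1:ℝ) < 2)
        have e2 : ∀ᶠ j in atTop, resM X Z E (u j) ≤ 1 / 2 :=
          hres.eventually_le_const (by norm_num : (0:ℝ) < 1 / 2)
        have e3 : ∀ᶠ j in atTop, kin (u j) ≤ T + 1 :=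
          l2.eventually_le_const (by linarith)
        have e4 : ∀ᶠ j in atTop, ∀ m : Fin 3, one (grd (gm m ((L : ℝ) + 1))) (u j) ≤ n + η := by
          rw [Filter.eventually_all]
          intro m
          have := h5 n φ u (grd (gm m ((L : ℝ) + 1))) (3 * K ^ 2) (hfin_grd_cont (H6 m _ hLp).1)
            (hfin_grd_le (H6 m _ hLp).1) hG.lp (fun j => (hsm j).1) hcv
          exact this.eventually_le_const (hLη m)
        filter_upwards [e1, e2, e3, e4] with j hj1 hj2 hj3 hj4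
        have hQ := innm_Q_le_one h12 h13 X Z E (u j) (hsm j).1 hE hj1 hj2
        have hQ2 := hfin_en h12 h13 X Z E hEn (u j) (hsm j).1 hj1 hj2
        have p1 := com_kin_nonneg (u j)
        have p2 := com_pair_nonneg (u j)
        have p3 : 0 ≤ one (pot X Z) (u j) :=
          com_one_nonneg _ (innm_pot_nonneg X Z hZ0) _
        have q1 := HP n M X Z (u j) hM hSep hZ0 (fun j => (hZ1 j).le) (hsm j).1 hj1
        rw [← hW] at q1
        have q2 : pair (u j) ≤ Cp * (kin (u j) + W) + W := by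
          unfold QM at hQ
          linarith
        have hs0 := Real.sqrt_nonneg (resM X Z E (u j))
        obtain ⟨B1, hB1⟩ : ∃ B1 : ℝ, B1 = 4 * kin (u j) + Ca / d * (1 + Ca * (kin (u j) + n)) +
            C' * Real.sqrt (resM X Z E (u j)) := ⟨_, rfl⟩
        have hB1n : 0 ≤ B1 := by rw [hB1]; positivity
        have q3 : ∀ s : ℝ, 0 < s → s ≤ 1 →
            ∑ j', Z j' * one (fun y => mor s (y - X j')) (u j) ≤ B1 := by
          intro s hs hsd
          refine (HA' (u j) (hsm j).1 hj1 hj3 s hs hsd).trans ?_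
          rw [hB1]
          have w2 : Ca / d * (QM X Z (u j) - kin (u j) + nucR X Z * PW.sq (u j) +
              Ca * (kin (u j) + n)) ≤ Ca / d * (1 + Ca * (kin (u j) + n)) :=
            mul_le_mul_of_nonneg_left (by linarith) (by positivity)
          linarith
        have hcp : Cp * (kin (u j) + W) ≤ Cp * (T + 1 + W) :=
          mul_le_mul_of_nonneg_left (by linarith) hCp.le
        have hcp0 : 0 ≤ Cp * (kin (u j) + W) := by positivity
        have hM2 := le_abs_self M0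
        have hM3 := abs_nonneg M0
        have hM4 := hM0 j
        have hb := HI (u j) (hsm j).1 (hsm j).2 hj1 (by linarith) (by linarith) (by linarith)
          (by linarith) (by linarith) B1 1 (n + η) hB1n one_pos (by linarith) (by linarith) q3
          hj4
        refine hb.trans (add_le_add ?_ le_rfl)
        have n1 := MTH_ind (u j) hj1
        rw [← hB1]
        apply mul_le_mul_of_nonneg_left _ (by positivity)
        have b1 : (kin (u j) + pair (u j) + one (pot X Z) (u j)) / R ^ 2 ≤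
            (kin (u j) + (Cp * (kin (u j) + W) + W) + Cp * (kin (u j) + W)) / R ^ 2 :=
          div_le_div_of_nonneg_right (by linarith) (by positivity)
        have b2 : one (ind Set.univ) (u j) / R ^ 4 ≤ 2 * n / R ^ 4 :=
          div_le_div_of_nonneg_right n1 (by positivity)
        exact add_le_add le_rfl (mul_le_mul_of_nonneg_left (add_le_add b1 b2) (by positivity))
      have lim1 : Tendsto (fun j => (∑ m, PW.sq (fun s => Pg (gm m ((L:ℝ) + 1)) (u j s))) ^ 2)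
          atTop (nhds ((∑ m, PW.sq (PG (gm m ((L:ℝ) + 1)) φ G)) ^ 2)) :=
        (tendsto_finsetSum _ fun m _ => l3 _ (H6 m _ hLp).1.sm (H6 m _ hLp).1.cs).pow 2
      have lr : Tendsto (fun j => Real.sqrt (resM X Z E (u j))) atTop (nhds 0) := by
        have := hres.sqrt
        rwa [Real.sqrt_zero] at this
      have lim2 : Tendsto (fun j => 3 / 4 * ((n:ℝ) + η) * ((4 * kin (u j) +
            Ca / d * (1 + Ca * (kin (u j) + n)) +
            C' * Real.sqrt (resM X Z E (u j))) / 2 + Cb * K ^ 2 * ((kin (u j) +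
            (Cp * (kin (u j) + W) + W) + Cp * (kin (u j) + W)) / R ^ 2 + 2 * n / R ^ 4)) +
            C'' * Real.sqrt (resM X Z E (u j))) atTop
          (nhds (3 / 4 * ((n:ℝ) + η) * ((4 * T + Ca / d * (1 + Ca * (T + n)) +
            C' * 0) / 2 + Cb * K ^ 2 * ((T +
            (Cp * (T + W) + W) + Cp * (T + W)) / R ^ 2 + 2 * n / R ^ 4)) + C'' * 0)) := by
        have t1 := ((l2.add_const W).const_mul Cp)
        have t2 := (l2.add (t1.add_const W))
        have t3 := ((t2.add t1).div_const (R ^ 2)).add_const (2 * (n:ℝ) / R ^ 4)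
        have t4 := (((l2.add_const (n:ℝ)).const_mul Ca).const_add 1).const_mul (Ca / d)
        have t5 := (((l2.const_mul 4).add t4).add (lr.const_mul C')).div_const 2
        exact ((t5.add (t3.const_mul (Cb * K ^ 2))).const_mul (3 / 4 * ((n:ℝ) + η))).add
          (lr.const_mul C'')
      have hfin := le_of_tendsto_of_tendsto lim1 lim2 hevj
      rw [mul_zero, mul_zero, add_zero, add_zero, ← hV] at hfin
      exact hfin
    have lim1 : Tendsto (fun L : ℕ => (∑ m, PW.sq (PG (gm m (L + 1)) φ G)) ^ 2) atTop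
        (nhds ((∑ m, PW.sq (fun s x => ∑ k, G k m s x)) ^ 2)) :=
      (tendsto_finsetSum _ fun m _ => h8 n φ G m hG.lp hG.lpG).pow 2
    have t0 : Tendsto (fun L : ℕ => (((L:ℝ) + 1) / 2) ^ 2) atTop atTop :=
      (tendsto_pow_atTop two_ne_zero).comp hLt
    have t1 : Tendsto (fun L : ℕ => (((L:ℝ) + 1) / 2) ^ 4) atTop atTop :=
      (tendsto_pow_atTop four_ne_zero).comp hLt
    have t2 := (t0.const_div_atTop (T + (Cp * (T + W) + W) + Cp * (T + W))).add
      (t1.const_div_atTop (2 * (n:ℝ)))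
    have t3 := ((t2.const_mul (Cb * K ^ 2)).const_add (V / 2)).const_mul (3 / 4 * ((n:ℝ) + η))
    have hfin := le_of_tendsto_of_tendsto lim1 t3 hev
    rw [add_zero, mul_zero, add_zero] at hfin
    exact hfin
  have key2 : mom G ^ 2 ≤ 3 / 8 * n * V := by
    refine le_of_forall_pos_le_add fun ε hε => ?_
    have h := key (ε / (3 / 8 * V)) (by positivity)
    have e : 3 / 4 * ((n:ℝ) + ε / (3 / 8 * V)) * (V / 2) = 3 / 8 * n * V + ε := by
      field_simp
      ring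
    rwa [e] at h
  have hm0 : 0 ≤ mom G := by
    unfold mom
    exact Finset.sum_nonneg fun _ _ => com_sq_nonneg _
  have hn4 : (n:ℝ) ≤ 4 / a * T := by
    have : (n:ℝ) = 4 / a * (a / 4 * n) := by field_simp
    rw [this]
    exact mul_le_mul_of_nonneg_left hTn' (by positivity)
  have hVT : V ≤ (4 + Ca * (Ca + 1) * (1 + 4 / a) / d) * T := by
    have e1 : 1 + Ca * (T + n) ≤ (Ca + 1) * ((1 + 4 / a) * T) := by
      have : (T + n) ≤ (1 + 4 / a) * T := by linarith
      have h2 : Ca * (T + n) ≤ Ca * ((1 + 4 / a) * T) := mul_le_mul_of_nonneg_left this hCa.le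
      linarith
    have e2 : Ca / d * (1 + Ca * (T + n)) ≤ Ca / d * ((Ca + 1) * ((1 + 4 / a) * T)) :=
      mul_le_mul_of_nonneg_left e1 (by positivity)
    have e3 : Ca / d * ((Ca + 1) * ((1 + 4 / a) * T)) =
        Ca * (Ca + 1) * (1 + 4 / a) / d * T := by ring
    rw [hV]
    linarith
  have hfac : 3 / 2 * (4 + Ca * (Ca + 1) * (1 + 4 / a) / d) ≤ a * θ ^ 2 := by
    have e1 : 3 / 2 * (Ca * (Ca + 1)) * (1 + 4 / a) ≤ (a * θ ^ 2 - 6) * d := by
      have h0 : 0 < a * θ ^ 2 - 6 := by linarith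
      rw [hd0, div_le_iff₀ h0] at hdd0
      linarith
    have e2 : 3 / 2 * (Ca * (Ca + 1)) * (1 + 4 / a) / d ≤ a * θ ^ 2 - 6 := by
      rw [div_le_iff₀ hd0p]
      exact e1
    have e3 : 3 / 2 * (4 + Ca * (Ca + 1) * (1 + 4 / a) / d) =
        6 + 3 / 2 * (Ca * (Ca + 1)) * (1 + 4 / a) / d := by ring
    rw [e3]
    linarith
  have hfinal : mom G ^ 2 ≤ (θ * T) ^ 2 := by
    calc mom G ^ 2 ≤ 3 / 8 * n * V := key2
      _ ≤ 3 / 8 * (4 / a * T) * ((4 + Ca * (Ca + 1) * (1 + 4 / a) / d) * T) := by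
          apply mul_le_mul _ hVT hV0.le (by positivity)
          linarith
      _ = 1 / a * (3 / 2 * (4 + Ca * (Ca + 1) * (1 + 4 / a) / d)) * T ^ 2 := by ring
      _ ≤ 1 / a * (a * θ ^ 2) * T ^ 2 := by
          apply mul_le_mul_of_nonneg_right _ (by positivity)
          exact mul_le_mul_of_nonneg_left hfac (by positivity)
      _ = (θ * T) ^ 2 := by field_simp
  exact (pow_le_pow_iff_left₀ hm0 (by positivity) two_ne_zero).1 hfinal

end Pool.Agent.Helper39.HS
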